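import Mathlib
import Pool.Agent.H73.KanDefs

namespace Pool.Agent.Results.MP_ba200f_al.GrassmannOne

open Pool.Agent.H73.KanDefs

universe u v

variable (F : Type u) [Field F]

/-- The grading of `F × F` with first coordinate even and second coordinate odd. -/
def g2 : Grading F (F × F) where
  part i := if i = 0 then LinearMap.ker (LinearMap.snd F F F) else LinearMap.ker (LinearMap.fst F F F)
  compl := by
    have h : (1 : ZMod 2) ≠ 0 := by decide
    simp only [if_true, if_neg h, LinearMap.ker_snd, LinearMap.ker_fst]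
    exact LinearMap.isCompl_range_inl_inr

variable {F}

lemma mem0 (p : F × F) : p ∈ (g2 F).part 0 ↔ p.2 = 0 := by simp [g2]
lemma mem1 (p : F × F) : p ∈ (g2 F).part 1 ↔ p.1 = 0 := by
  have h : (1 : ZMod 2) ≠ 0 := by decide
  simp [g2]

lemma sign_g2 (p : F × F) : (g2 F).sign p = (p.1, -p.2) := by
  have h : p = (p.1, 0) + (0, p.2) := by simp
  have h0 : ((p.1, 0) : F × F) ∈ (g2 F).part 0 := (mem0 _).2 rfl
  have h1 : ((0, p.2) : F × F) ∈ (g2 F).part 1 := (mem1 _).2 rfl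
  have e0 : (g2 F).sign (p.1, 0) = (p.1, 0) :=
    LinearMap.ofIsCompl_apply_left (g2 F).compl (⟨_, h0⟩ : (g2 F).part 0)
  have e1 : (g2 F).sign (0, p.2) = -(0, p.2) :=
    LinearMap.ofIsCompl_apply_right (g2 F).compl (⟨_, h1⟩ : (g2 F).part 1)
  rw [h, map_add, e0, e1]
  simp

variable (F)

/-- The Grassmann Poisson superalgebra `G_1`: `(a, b)` stands for `a + b ξ`. -/
def G1 : DB F (F × F) where
  g := g2 F
  dot := LinearMap.mk₂ F (fun p q => (p.1 * q.1, p.1 * q.2 + p.2 * q.1))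
    (fun p p' q => by ext <;> simp <;> ring) (fun c p q => by ext <;> simp <;> ring)
    (fun p q q' => by ext <;> simp <;> ring) (fun c p q => by ext <;> simp <;> ring)
  br := LinearMap.mk₂ F (fun p q => (-(p.2 * q.2), 0))
    (fun p p' q => by ext <;> simp; ring) (fun c p q => by ext <;> simp; ring)
    (fun p q q' => by ext <;> simp; ring) (fun c p q => by ext <;> simp; ring)

/-- The two-dimensional module. -/
def B2 : Bimod F ((F × F) × (F × F)) (F × F) where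
  g := g2 F
  l := LinearMap.mk₂ F (fun a m => (a.1.1 * m.1 + a.1.2 * m.2 + a.2.2 * m.1, a.1.1 * m.2 + a.2.1 * m.1))
    (fun p p' q => by ext <;> simp <;> ring) (fun c p q => by ext <;> simp <;> ring)
    (fun p q q' => by ext <;> simp <;> ring) (fun c p q => by ext <;> simp <;> ring)
  r := LinearMap.mk₂ F (fun m a => (a.1.1 * m.1 - a.1.2 * m.2 + a.2.2 * m.1, a.1.1 * m.2 + a.2.1 * m.1))
    (fun p p' q => by ext <;> simp <;> ring) (fun c p q => by ext <;> simp <;> ring)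
    (fun p q q' => by ext <;> simp <;> ring) (fun c p q => by ext <;> simp <;> ring)

variable {F}

lemma dot_apply (p q : F × F) : (G1 F).dot p q = (p.1 * q.1, p.1 * q.2 + p.2 * q.1) := rfl
lemma br_apply (p q : F × F) : (G1 F).br p q = (-(p.2 * q.2), 0) := rfl
lemma l_apply (a : (F × F) × (F × F)) (m : F × F) :
    (B2 F).l a m = (a.1.1 * m.1 + a.1.2 * m.2 + a.2.2 * m.1, a.1.1 * m.2 + a.2.1 * m.1) := rfl
lemma r_apply (a : (F × F) × (F × F)) (m : F × F) :
    (B2 F).r m a = (a.1.1 * m.1 - a.1.2 * m.2 + a.2.2 * m.1, a.1.1 * m.2 + a.2.1 * m.1) := rfl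

lemma kan_apply (p q : (F × F) × (F × F)) : (G1 F).kanMul p q =
    ((p.1.1 * q.1.1 + p.2.2 * q.2.2, p.1.1 * q.1.2 + p.1.2 * q.1.1),
     (p.1.1 * q.2.1 + p.2.1 * q.1.1,
       p.1.1 * q.2.2 + p.1.2 * q.2.1 - p.2.1 * q.1.2 + p.2.2 * q.1.1)) := by
  have h : (G1 F).g = g2 F := rfl
  simp only [DB.kanMul, kanOp, LinearMap.mk₂_apply, h, sign_g2, dot_apply, br_apply]
  ext <;> simp; ring

lemma ext_apply (p q : ((F × F) × (F × F)) × (F × F)) :
    nullExt (G1 F).kanMul (B2 F).l (B2 F).r p q =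
      ((G1 F).kanMul p.1 q.1, (B2 F).l p.1 q.2 + (B2 F).r p.2 q.1) := rfl

lemma par (i : ZMod 2) : i = 0 ∨ i = 1 := by revert i; decide

lemma eps0 : eps F 0 = 1 := by simp [eps]
lemma eps1 : eps F 1 = -1 := by
  have : (1 : ZMod 2).val = 1 := rfl
  simp [eps, this]
lemma oo : (1 : ZMod 2) + 1 = 0 := by decide

lemma kmem0 (p : (F × F) × (F × F)) : p ∈ (G1 F).g.kan.part 0 ↔ p.1.2 = 0 ∧ p.2.1 = 0 := by
  have h : (G1 F).g = g2 F := rfl
  simp only [Grading.kan, Grading.prod, Grading.shift, Submodule.mem_prod, h, zero_add, mem0, mem1]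
lemma kmem1 (p : (F × F) × (F × F)) : p ∈ (G1 F).g.kan.part 1 ↔ p.1.1 = 0 ∧ p.2.2 = 0 := by
  have h : (G1 F).g = g2 F := rfl
  simp only [Grading.kan, Grading.prod, Grading.shift, Submodule.mem_prod, h, oo, mem0, mem1]

lemma emem0 (p : ((F × F) × (F × F)) × (F × F)) :
    p ∈ ((G1 F).g.kan.prod (B2 F).g).part 0 ↔ (p.1.1.2 = 0 ∧ p.1.2.1 = 0) ∧ p.2.2 = 0 := by
  rw [← kmem0, ← mem0]; rfl
lemma emem1 (p : ((F × F) × (F × F)) × (F × F)) :
    p ∈ ((G1 F).g.kan.prod (B2 F).g).part 1 ↔ (p.1.1.1 = 0 ∧ p.1.2.2 = 0) ∧ p.2.1 = 0 := by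
  rw [← kmem1, ← mem1]; rfl

lemma ext_jordan : (B2 F).IsJordan (G1 F).g.kan (G1 F).kanMul := by
  refine ⟨?_, ?_, ?_, ?_⟩
  · rintro i j ⟨⟨⟨a1, a2⟩, a3, a4⟩, a5, a6⟩ ha ⟨⟨⟨b1, b2⟩, b3, b4⟩, b5, b6⟩ hb
    rcases par i with rfl | rfl <;> rcases par j with rfl | rfl <;>
      simp only [emem0, emem1, add_zero, zero_add, oo, ext_apply, kan_apply, l_apply, r_apply]
        at ha hb ⊢ <;>
      obtain ⟨⟨rfl, rfl⟩, rfl⟩ := ha <;> obtain ⟨⟨rfl, rfl⟩, rfl⟩ := hb <;> simp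
  · rintro i j ⟨⟨⟨a1, a2⟩, a3, a4⟩, a5, a6⟩ ha ⟨⟨⟨b1, b2⟩, b3, b4⟩, b5, b6⟩ hb
    rcases par i with rfl | rfl <;> rcases par j with rfl | rfl <;>
      simp only [emem0, emem1, mul_zero, mul_one, eps0, eps1, ext_apply, kan_apply,
        l_apply, r_apply] at ha hb ⊢ <;>
      obtain ⟨⟨rfl, rfl⟩, rfl⟩ := ha <;> obtain ⟨⟨rfl, rfl⟩, rfl⟩ := hb <;>
      ext <;> simp <;> ring
  · rintro i j k l ⟨⟨⟨a1, a2⟩, a3, a4⟩, a5, a6⟩ ha ⟨⟨⟨b1, b2⟩, b3, b4⟩, b5, b6⟩ hb
      ⟨⟨⟨c1, c2⟩, c3, c4⟩, c5, c6⟩ hc ⟨⟨⟨d1, d2⟩, d3, d4⟩, d5, d6⟩ hd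
    rcases par i with rfl | rfl <;> rcases par j with rfl | rfl <;>
      rcases par k with rfl | rfl <;> rcases par l with rfl | rfl <;>
      simp only [emem0, emem1, mul_zero, mul_one, add_zero, zero_add, oo, eps0, eps1,
        ext_apply, kan_apply, l_apply, r_apply] at ha hb hc hd ⊢ <;>
      obtain ⟨⟨rfl, rfl⟩, rfl⟩ := ha <;> obtain ⟨⟨rfl, rfl⟩, rfl⟩ := hb <;>
      obtain ⟨⟨rfl, rfl⟩, rfl⟩ := hc <;> obtain ⟨⟨rfl, rfl⟩, rfl⟩ := hd <;>
      ext <;> simp <;> ring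
  · rintro ⟨⟨⟨a1, a2⟩, a3, a4⟩, a5, a6⟩ ha ⟨⟨⟨b1, b2⟩, b3, b4⟩, b5, b6⟩
    simp only [emem0, ext_apply, kan_apply, l_apply, r_apply] at ha ⊢
    obtain ⟨⟨rfl, rfl⟩, rfl⟩ := ha
    ext <;> simp <;> ring

lemma jordan_of_ext {J : Type*} [AddCommGroup J] [Module F J] {M : Type*} [AddCommGroup M]
    [Module F M] (B : Bimod F J M) (g : Grading F J) (m : J →ₗ[F] J →ₗ[F] J)
    (h : B.IsJordan g m) : IsJordanSuper g m := by
  have mem : ∀ i, ∀ a ∈ g.part i, ((a, 0) : J × M) ∈ (g.prod B.g).part i :=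
    fun i a ha => ⟨ha, Submodule.zero_mem _⟩
  refine ⟨fun i j a ha b hb => (h.even i j _ (mem i a ha) _ (mem j b hb)).1,
    fun i j a ha b hb => congrArg Prod.fst (h.comm i j _ (mem i a ha) _ (mem j b hb)),
    fun i j k l a ha b hb c hc d hd => congrArg Prod.fst
      (h.lin i j k l _ (mem i a ha) _ (mem j b hb) _ (mem k c hc) _ (mem l d hd)),
    fun x hx y => congrArg Prod.fst (h.cubic _ (mem 0 x hx) (y, 0))⟩

lemma g1_db : (G1 F).IsDotBracket := by
  have h : (G1 F).g = g2 F := rfl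
  refine ⟨?_, ?_, ?_, ?_, ?_⟩
  · rintro i j ⟨a1, a2⟩ ha ⟨b1, b2⟩ hb
    rcases par i with rfl | rfl <;> rcases par j with rfl | rfl <;>
      simp only [h, mem0, mem1, add_zero, zero_add, oo, dot_apply] at ha hb ⊢ <;>
      subst ha <;> subst hb <;> simp
  · rintro i j ⟨a1, a2⟩ ha ⟨b1, b2⟩ hb
    rcases par i with rfl | rfl <;> rcases par j with rfl | rfl <;>
      simp only [h, mem0, mem1, add_zero, zero_add, oo, br_apply] at ha hb ⊢ <;>
      subst ha <;> subst hb <;> simp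
  · intro a b c
    simp only [dot_apply]
    ext <;> simp <;> ring
  · rintro i j ⟨a1, a2⟩ ha ⟨b1, b2⟩ hb
    rcases par i with rfl | rfl <;> rcases par j with rfl | rfl <;>
      simp only [h, mem0, mem1, mul_zero, mul_one, eps0, eps1, dot_apply] at ha hb ⊢ <;>
      subst ha <;> subst hb <;> ext <;> simp <;> ring
  · rintro i j ⟨a1, a2⟩ ha ⟨b1, b2⟩ hb
    rcases par i with rfl | rfl <;> rcases par j with rfl | rfl <;>
      simp only [h, mem0, mem1, mul_zero, mul_one, eps0, eps1, br_apply] at ha hb ⊢ <;>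
      subst ha <;> subst hb <;> ext <;> simp <;> ring

lemma g1_one : (G1 F).IsOne (1, 0) :=
  ⟨(mem0 _).2 rfl, fun a => ⟨by simp [dot_apply], by simp [dot_apply]⟩⟩

lemma g1_simple : (G1 F).IsSimple := by
  refine ⟨inferInstance, fun I hI => ?_⟩
  by_cases h0 : I = ⊥
  · exact Or.inl h0
  right
  obtain ⟨⟨a, b⟩, hx, hne⟩ := Submodule.exists_mem_ne_zero_of_ne_bot h0
  have h1 : ((1, 0) : F × F) ∈ I := by
    by_cases hb : b = 0
    · subst hb
      have ha : a ≠ 0 := fun ha => hne (by simp [ha])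
      have := (hI _ hx (a⁻¹, 0)).1
      simpa [dot_apply, ha] using this
    · have := (hI _ hx (0, -b⁻¹)).2.2.1
      simpa [br_apply, hb] using this
  rw [eq_top_iff]
  intro y _
  have := (hI _ h1 y).1
  simpa [dot_apply] using this

lemma kan_simple (I : Submodule F ((F × F) × (F × F)))
    (hI : ∀ x ∈ I, ∀ a, (G1 F).kanMul a x ∈ I ∧ (G1 F).kanMul x a ∈ I) : I = ⊥ ∨ I = ⊤ := by
  by_cases h0 : I = ⊥
  · exact Or.inl h0
  right
  obtain ⟨⟨⟨a, b⟩, c, d⟩, hx, hne⟩ := Submodule.exists_mem_ne_zero_of_ne_bot h0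
  have key : ∀ a b c d : F, (((a, b), (c, d)) : (F × F) × (F × F)) ∈ I → c ≠ 0 →
      (((1, 0), (0, 0)) : (F × F) × (F × F)) ∈ I := by
    intro a b c d hx hc
    have := (hI _ (hI _ hx ((0, 1), (0, 0))).2 ((0, 0), (0, -c⁻¹))).2
    simpa [kan_apply, hc] using this
  have h1 : (((1, 0), (0, 0)) : (F × F) × (F × F)) ∈ I := by
    by_cases hb : b = 0
    · by_cases hc : c = 0
      · by_cases ha : a = 0
        · have hd : d ≠ 0 := fun hd => hne (by simp [ha, hb, hc, hd])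
          have := (hI _ hx ((0, 0), (0, d⁻¹))).2
          simpa [kan_apply, ha, hb, hc, hd] using this
        · have := (hI _ hx ((0, 0), (1, 0))).2
          refine key 0 0 a 0 ?_ ha
          simpa [kan_apply, hb] using this
      · exact key a b c d hx hc
    · have := (hI _ (hI _ hx ((0, 0), (1, 0))).2 ((0, 0), (0, b⁻¹))).2
      simpa [kan_apply, hb] using this
  rw [eq_top_iff]
  intro y _
  have := (hI _ h1 y).1
  simpa [kan_apply] using this

lemma b2_unital : (B2 F).IsUnital ((1, 0), 0) :=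
  fun x => ⟨by simp [l_apply], by simp [r_apply]⟩

lemma b2_irr : (B2 F).IsIrreducible := by
  refine ⟨inferInstance, fun S _ hS => ?_⟩
  by_cases h0 : S = ⊥
  · exact Or.inl h0
  right
  obtain ⟨⟨a, b⟩, hx, hne⟩ := Submodule.exists_mem_ne_zero_of_ne_bot h0
  have h1 : ((1, 0) : F × F) ∈ S := by
    by_cases ha : a = 0
    · subst ha
      have hb : b ≠ 0 := fun hb => hne (by simp [hb])
      have := (hS _ hx ((0, b⁻¹), (0, 0))).1
      simpa [l_apply, hb] using this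
    · have := (hS _ hx ((0, 0), (0, a⁻¹))).1
      simpa [l_apply, ha] using this
  rw [eq_top_iff]
  rintro ⟨y, z⟩ _
  have := (hS _ h1 ((y, 0), (z, 0))).1
  simpa [l_apply] using this

lemma odd_zero {V : Type v} [AddCommGroup V] [Module F V] (g : Grading F V)
    (hV : Module.finrank F V = 1) (f : V → V) (hf : ∀ i, ∀ x ∈ g.part i, f x ∈ g.part (i + 1))
    (x : V) : f x = 0 := by
  have hs : IsSimpleModule F V := isSimpleModule_iff_finrank_eq_one.2 hV
  rcases hs.eq_bot_or_eq_top (g.part 0) with h | h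
  · have h1 : g.part 1 = ⊤ := by
      have := g.compl.sup_eq_top
      rwa [h, bot_sup_eq] at this
    have := hf 1 x (by rw [h1]; trivial)
    rwa [oo, h, Submodule.mem_bot] at this
  · have h1 : g.part 1 = ⊥ := by
      have := g.compl.inf_eq_bot
      rwa [h, top_inf_eq] at this
    have := hf 0 x (by rw [h]; trivial)
    rwa [zero_add, h1, Submodule.mem_bot] at this

lemma not_kan {V : Type v} [AddCommGroup V] [Module F V] (W : DBMod F (F × F) V)
    (hW : W.IsModule (G1 F)) : ¬ (W.kan (G1 F)).RightEquiv (B2 F) := by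
  rintro ⟨φ, hφ⟩
  have hfin : Module.Finite F (V × V) := Module.Finite.equiv φ.symm
  have hfinV : Module.Finite F V :=
    Module.Finite.of_surjective (LinearMap.fst F V V) LinearMap.fst_surjective
  have hV : Module.finrank F V = 1 := by
    have := φ.finrank_eq
    rw [Module.finrank_prod, Module.finrank_prod, Module.finrank_self] at this
    omega
  have hxi : (((0, 1), 0) : (F × F) × V) ∈ (W.ext (G1 F)).g.part 1 :=
    ⟨(mem1 _).2 rfl, Submodule.zero_mem _⟩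
  have hd : ∀ x, W.dotR x (0, 1) = 0 := odd_zero W.g hV _ fun i x hx => by
    have := (hW.dot_even i 1 (0, x) ⟨Submodule.zero_mem _, hx⟩ _ hxi).2
    simpa [DBMod.ext, nullExt] using this
  have hb : ∀ x, W.brR x (0, 1) = 0 := odd_zero W.g hV _ fun i x hx => by
    have := (hW.br_even i 1 (0, x) ⟨Submodule.zero_mem _, hx⟩ _ hxi).2
    simpa [DBMod.ext, nullExt] using this
  have hz : ∀ x, (W.kan (G1 F)).r x (0, (0, 1)) = 0 := by
    intro x
    have h : (G1 F).g = g2 F := rfl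
    have hs : (g2 F).sign (0, 1) = -(0, 1) := by rw [sign_g2]; simp
    simp only [DBMod.kan, kanOp, LinearMap.mk₂_apply, h, hs, map_neg, hb, hd, map_zero]
    simp
  have := hφ (φ.symm (1, 0)) (0, (0, 1))
  rw [hz, map_zero, LinearEquiv.apply_symm_apply, r_apply] at this
  have := congrArg Prod.fst this
  simp at this

/-- The assertion of Q1 fails for `A = G_1`, over every field. -/
theorem result (F : Type u) [Field F] :
    (G1 F).IsDotBracket ∧ (G1 F).IsOne (1, 0) ∧ (G1 F).IsSimple ∧ (G1 F).IsJordanBracket ∧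
    (∀ I : Submodule F ((F × F) × (F × F)),
      (∀ x ∈ I, ∀ a, (G1 F).kanMul a x ∈ I ∧ (G1 F).kanMul x a ∈ I) → I = ⊥ ∨ I = ⊤) ∧
    ∃ (M : Type u) (_ : AddCommGroup M) (_ : Module F M) (B : Bimod F ((F × F) × (F × F)) M),
      B.IsJordan (G1 F).g.kan (G1 F).kanMul ∧ B.IsUnital ((1, 0), 0) ∧ B.IsIrreducible ∧
      ∀ (V : Type v) [AddCommGroup V] [Module F V] (W : DBMod F (F × F) V),
        W.IsModule (G1 F) → ¬ (W.kan (G1 F)).RightEquiv B :=
  ⟨g1_db, g1_one, g1_simple, jordan_of_ext _ _ _ ext_jordan, kan_simple,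
    F × F, inferInstance, inferInstance, B2 F, ext_jordan, b2_unital, b2_irr,
    fun _ _ _ W hW => not_kan W hW⟩

end Pool.Agent.Results.MP_ba200f_al.GrassmannOne
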